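import Pool.Agent.Helper31.RG.Goals
import Pool.Agent.Helper90.BG.Map

set_option autoImplicit false

/-! # MP_c578c8_lc, packet MAPR: the length and the letters of the word -/

namespace Pool.Agent.Helper85.RG.PkMAPR

open Pool.Agent.Helper65.LinSpace Pool.Agent.Helper78 Pool.Agent.Helper78.Mpc
  Pool.Agent.Helper78.Xor Pool.Agent.Helper95.BG Finset

theorem lenL_eq {T : Type} (f : List Bool → List Bool → List T) (c nT Bg MC n₀ : ℕ) (idx : T → ℕ)
    (hD : Desc f c nT Bg MC n₀ idx) (w y : List Bool) (hw : n₀ ≤ w.length)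
    (hy : y.length ≤ c * w.length) (cap : ℕ) (hcap : cap ≤ mS w.length)
    (hlen : (f w y).length ≤ cap) :
    lenL nT Bg MC (LW w.length) (2 ^ (2 * ll w.length)) cap (num w) (num y) =
      (f w y).length := by
  obtain ⟨hlt, hinj, hsurj, hdesc⟩ := hD
  have hisl : ∀ i t, isL Bg MC (LW w.length) (2 ^ (2 * ll w.length)) (num w) (num y) i t < 2 := by
    intro i t; unfold isL; exact univ_lt _ _ _ _
  have hd := hdesc w y hw hy
  have hin : ∀ i < cap,
      lt01 0 (∑ t ∈ range nT, isL Bg MC (LW w.length) (2 ^ (2 * ll w.length)) (num w) (num y) i t) =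
        if i < (f w y).length then 1 else 0 := by
    intro i hic
    have hi : i < mS w.length := lt_of_lt_of_le hic hcap
    split_ifs with h
    · apply Pool.Agent.Helper90.BG.PkMAP.lt01_val
      have hs : (f w y)[i]? = some ((f w y)[i]) := List.getElem?_eq_getElem h
      have h1 := (hd i hi ((f w y)[i])).2 hs
      have h2 : isL Bg MC (LW w.length) (2 ^ (2 * ll w.length)) (num w) (num y) i
          (idx ((f w y)[i])) ≤ ∑ t ∈ range nT,
            isL Bg MC (LW w.length) (2 ^ (2 * ll w.length)) (num w) (num y) i t :=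
        single_le_sum (f := fun t => isL Bg MC (LW w.length) (2 ^ (2 * ll w.length)) (num w) (num y)
          i t) (fun _ _ => Nat.zero_le _) (mem_range.2 (hlt _))
      omega
    · apply Pool.Agent.Helper90.BG.PkMAP.lt01_val'
      have h3 : ∑ t ∈ range nT,
            isL Bg MC (LW w.length) (2 ^ (2 * ll w.length)) (num w) (num y) i t = 0 := by
        refine sum_eq_zero fun k hk => ?_
        obtain ⟨t, rfl⟩ := hsurj k (mem_range.1 hk)
        have h1 := hisl i (idx t)
        by_contra h2
        have h4 : isL Bg MC (LW w.length) (2 ^ (2 * ll w.length)) (num w) (num y) i (idx t) = 1 := by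
          omega
        have h5 := (hd i hi t).1 h4
        rw [List.getElem?_eq_none (by omega)] at h5
        exact absurd h5 (by simp)
      omega
  unfold lenL
  rw [sum_congr rfl (fun i hi => hin i (mem_range.1 hi))]
  rw [← sum_filter]
  have h6 : (range cap).filter (fun i => i < (f w y).length) = range (f w y).length := by
    ext i
    simp only [mem_filter, mem_range]
    omega
  rw [h6]
  simp

theorem thm : Pool.Agent.Helper31.RG.G_MAPR := by
  intro T f ι c nT Bg MC n₀ idx q τ hD hτ
  obtain ⟨LT, IT, h⟩ := Pool.Agent.Helper90.BG.PkMAP.thm T f ι c nT Bg MC n₀ idx q τ hD hτ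
  refine ⟨LT, IT, fun w y hw hy cap hcap hlen => ⟨?_, (h w y hw hy (hlen.trans hcap)).2⟩⟩
  unfold Pool.Agent.Helper31.RG.mL
  rw [log_num w, lenL_eq f c nT Bg MC n₀ idx hD w y hw hy cap hcap (by omega)]
  simp only [List.length_append, List.length_map]
  omega

end Pool.Agent.Helper85.RG.PkMAPR
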